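import Pool.Agent.MDW.Fin

/-!
# MP_9b0268_pr: the walk of a uniform meander does not converge to a correlated excursion

For the correlation `ρ₀ = -cos(π γ²/4)`, `γ = √(17/3 - √145/3)`, and for no constant `c > 0` does the
rescaled walk `t ↦ c n^{-1/2} Z_{2nt}` of a uniform meander of order `n` converge in law to the
correlated Brownian excursion in the quadrant. More generally, for no correlation `ρ ≠ 0` in
`(-1,1)` do the laws of `a_k Z_{2 n_k t}` converge to an excursion law, for any orders `n_k ≥ 1` and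
any constants `a_k ≥ 0`.
-/

set_option autoImplicit false

open MeasureTheory Filter Topology
open scoped BoundedContinuousFunction

namespace Pool.Agent.Results.MP_9b0268_pr.NoExcursionLimit

open MDW

/-- The laws of the walks `t ↦ a_k Z_{2 n_k t}` of uniform meanders of order `n_k` converge weakly
to `μ`. -/
def ConvAlong (n : ℕ → ℕ) (a : ℕ → ℝ) (μ : Measure C(unitInterval, ℝ × ℝ)) : Prop :=
  ∀ F : C(unitInterval, ℝ × ℝ) →ᵇ ℝ,
    Tendsto (fun k : ℕ => meanderAvg (a k) (n k) F) atTop (𝓝 (∫ w, F w ∂μ))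

theorem result :
    (∀ μ : Measure C(unitInterval, ℝ × ℝ), IsExcursionLaw rho0 μ →
      ∀ c : ℝ, 0 < c → ¬ ConvInLaw c μ) ∧
    ∀ ρ : ℝ, -1 < ρ → ρ < 1 → ρ ≠ 0 → ∀ μ : Measure C(unitInterval, ℝ × ℝ),
      IsExcursionLaw ρ μ → ∀ (n : ℕ → ℕ) (a : ℕ → ℝ), (∀ k, 0 < n k) → (∀ k, 0 ≤ a k) →
        ¬ ConvAlong n a μ :=
  ⟨fun _ hμ _ hc => main_conv rho0_mem.1 (lt_trans rho0_mem.2 one_pos) rho0_mem.2.ne hμ hc,
    fun _ h1 h2 h0 _ hμ _ _ hn ha => main h1 h2 h0 hμ hn ha⟩

end Pool.Agent.Results.MP_9b0268_pr.NoExcursionLimit
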